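import Mathlib

set_option autoImplicit false
set_option linter.all false

open Set Topology Filter

namespace Pool.Agent.Results.MP_f12e07_gt.SmallDensity

/-- `C_p(X)`: the continuous real functions with the topology of pointwise convergence -/
abbrev Cp (X : Type) [TopologicalSpace X] : Type := {f : X → ℝ // Continuous f}

/-- the closure in `Z × Z` of every discrete subset of `Z × Z` is Lindelöf -/
def DiscreteClosuresLindelof (Z : Type) [TopologicalSpace Z] : Prop :=
  ∀ D : Set (Z × Z), DiscreteTopology D → IsLindelof (closure D)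

section

variable {X : Type} [TopologicalSpace X]

/-- the zero function -/
def zero : Cp X := ⟨fun _ => 0, continuous_const⟩

/-- strictly increasing maps of the line into pairwise disjoint intervals tending to zero -/
noncomputable def theta (k : ℕ) (r : ℝ) : ℝ := (Real.arctan r + 4) / 10 ^ k

lemma theta_strictMono (k : ℕ) : StrictMono (theta k) := by
  intro a b hab
  unfold theta
  have := Real.arctan_strictMono hab
  gcongr

lemma theta_cont (k : ℕ) : Continuous (theta k) :=
  (Real.continuous_arctan.add continuous_const).div_const _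

lemma theta_lower (k : ℕ) (r : ℝ) : 2 / 10 ^ k < theta k r := by
  unfold theta
  have := Real.neg_pi_div_two_lt_arctan r
  have := Real.pi_lt_four
  gcongr
  linarith

lemma theta_upper (k : ℕ) (r : ℝ) : theta k r < 6 / 10 ^ k := by
  unfold theta
  have := Real.arctan_lt_pi_div_two r
  have := Real.pi_lt_four
  gcongr
  linarith

lemma theta_band {k m : ℕ} {r : ℝ} (h1 : 2 / 10 ^ k < theta m r) (h2 : theta m r < 6 / 10 ^ k) :
    k = m := by
  have key : ∀ {a b : ℕ}, a < b → (6 : ℝ) / 10 ^ b < 2 / 10 ^ a := by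
    intro a b hab
    have h3 : (10 : ℝ) ^ (a + 1) ≤ 10 ^ b := pow_le_pow_right₀ (by norm_num) hab
    have h4 : (0 : ℝ) < 10 ^ a := by positivity
    rw [div_lt_div_iff₀ (by positivity) h4]
    rw [pow_succ] at h3
    linarith
  rcases lt_trichotomy k m with h | h | h
  · have := key h
    have := theta_upper m r
    linarith
  · exact h
  · have := key h
    have := theta_lower m r
    linarith

/-- composition with `theta k` -/
noncomputable def Theta (k : ℕ) (f : Cp X) : Cp X :=
  ⟨fun x => theta k (f.1 x), (theta_cont k).comp f.2⟩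

lemma Theta_tendsto (f : Cp X) : Tendsto (fun k => Theta k f) atTop (𝓝 (zero : Cp X)) := by
  rw [tendsto_subtype_rng, tendsto_pi_nhds]
  intro x
  show Tendsto (fun k : ℕ => (Real.arctan (f.1 x) + 4) / 10 ^ k) atTop (𝓝 0)
  have h1 : Tendsto (fun k : ℕ => (10 : ℝ) ^ k) atTop atTop :=
    tendsto_pow_atTop_atTop_of_one_lt (by norm_num)
  exact h1.const_div_atTop _

/-- basic neighbourhoods -/
lemma nbhd {U : Set (Cp X)} (hU : IsOpen U) {f : Cp X} (hf : f ∈ U) :
    ∃ (E : Finset X) (ε : ℝ), 0 < ε ∧ ∀ g : Cp X, (∀ x ∈ E, |g.1 x - f.1 x| < ε) → g ∈ U := by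
  classical
  obtain ⟨V, hV, rfl⟩ := isOpen_induced_iff.1 hU
  obtain ⟨E, u, hu, hsub⟩ := isOpen_pi_iff.1 hV f.1 hf
  have h1 : ∀ x : X, ∃ ε : ℝ, 0 < ε ∧ (x ∈ E → Metric.ball (f.1 x) ε ⊆ u x) := by
    intro x
    by_cases hx : x ∈ E
    · obtain ⟨ε, hε, hb⟩ := Metric.isOpen_iff.1 (hu x hx).1 _ (hu x hx).2
      exact ⟨ε, hε, fun _ => hb⟩
    · exact ⟨1, one_pos, fun h => absurd h hx⟩
  choose ε hε hεu using h1
  obtain ⟨δ, hδ, hδE⟩ : ∃ δ : ℝ, 0 < δ ∧ ∀ x ∈ E, δ ≤ ε x := by
    clear hu hsub hεu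
    induction E using Finset.induction_on with
    | empty => exact ⟨1, one_pos, by simp⟩
    | insert a s ha ih =>
      obtain ⟨δ, hδ, h⟩ := ih
      refine ⟨min δ (ε a), lt_min hδ (hε a), fun x hx => ?_⟩
      rcases Finset.mem_insert.1 hx with rfl | hx
      · exact min_le_right _ _
      · exact (min_le_left _ _).trans (h x hx)
  refine ⟨E, δ, hδ, fun g hg => hsub fun x hx => hεu x hx ?_⟩
  rw [Metric.mem_ball, Real.dist_eq]
  exact (hg x hx).trans_le (hδE x hx)

/-- the left-separated part of a well-ordered family is dense in it -/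
lemma subset_closure_left {Z : Type} [TopologicalSpace Z] {I : Type} [LinearOrder I]
    [WellFoundedLT I] (s : I → Z) :
    closure (range s) ⊆ closure (s '' {i | s i ∉ closure (s '' Iio i)}) := by
  apply closure_minimal _ isClosed_closure
  rintro _ ⟨i, rfl⟩
  induction i using WellFoundedLT.induction with
  | _ i ih =>
    by_cases hi : s i ∈ closure (s '' Iio i)
    · have : closure (s '' Iio i) ⊆ closure (s '' {i | s i ∉ closure (s '' Iio i)}) := by
        apply closure_minimal _ isClosed_closure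
        rintro _ ⟨j, hj, rfl⟩
        exact ih j hj
      exact this hi
    · exact subset_closure ⟨i, hi, rfl⟩

/-- the key construction -/
theorem closure_range_lindelof (H : DiscreteClosuresLindelof (Cp X)) [Nonempty X]
    {I : Type} [LinearOrder I] [WellFoundedLT I] (z : I → Cp X) (W : I → Set (Cp X))
    (hW : ∀ i, IsOpen (W i)) (hz : ∀ i, z i ∈ W i) (hsep : ∀ i j, i < j → z j ∉ W i)
    (s : I → Cp X) : IsLindelof (closure (range s)) := by
  classical
  obtain ⟨x0⟩ := ‹Nonempty X›
  let D : Set (Cp X × Cp X) :=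
    {p | ∃ i k, s i ∉ closure (s '' Iio i) ∧ p = (s i, Theta k (z i))}
  have hD : DiscreteTopology D := by
    rw [discreteTopology_subtype_iff']
    rintro _ ⟨i, k, hi, rfl⟩
    obtain ⟨E, ε, hε, hE⟩ := nbhd (hW i) (hz i)
    refine ⟨{p | p.1 ∉ closure (s '' Iio i)} ∩ {p | 2 / 10 ^ k < p.2.1 x0} ∩
      {p | p.2.1 x0 < 6 / 10 ^ k} ∩
      {p | ∀ x ∈ E, theta k ((z i).1 x - ε) < p.2.1 x ∧ p.2.1 x < theta k ((z i).1 x + ε)}, ?_, ?_⟩
    · have hev : ∀ x : X, Continuous fun p : Cp X × Cp X => p.2.1 x := fun x =>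
        (continuous_apply x).comp (continuous_subtype_val.comp continuous_snd)
      refine ((IsOpen.inter ?_ (isOpen_lt continuous_const (hev x0))).inter
        (isOpen_lt (hev x0) continuous_const)).inter ?_
      · exact isClosed_closure.isOpen_compl.preimage continuous_fst
      · have : {p : Cp X × Cp X | ∀ x ∈ E, theta k ((z i).1 x - ε) < p.2.1 x ∧
            p.2.1 x < theta k ((z i).1 x + ε)} =
            ⋂ x ∈ E, {p | theta k ((z i).1 x - ε) < p.2.1 x ∧
              p.2.1 x < theta k ((z i).1 x + ε)} := by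
          ext p
          simp
        rw [this]
        exact isOpen_biInter_finset fun x _ =>
          (isOpen_lt continuous_const (hev x)).inter (isOpen_lt (hev x) continuous_const)
    · ext p
      constructor
      · rintro ⟨⟨⟨⟨h1, h2⟩, h3⟩, h4⟩, j, m, hj, rfl⟩
        have hkm : k = m := theta_band h2 h3
        subst hkm
        have hij : ¬ j < i := fun h => h1 (subset_closure ⟨j, h, rfl⟩)
        have hji : ¬ i < j := by
          intro h
          apply hsep i j h
          apply hE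
          intro x hx
          obtain ⟨h5, h6⟩ := h4 x hx
          have h7 := (theta_strictMono k).lt_iff_lt.1 h5
          have h8 := (theta_strictMono k).lt_iff_lt.1 h6
          rw [abs_lt]
          constructor <;> linarith
        have : j = i := le_antisymm (not_lt.1 hji) (not_lt.1 hij)
        subst this
        rfl
      · rintro rfl
        refine ⟨⟨⟨⟨hi, theta_lower k _⟩, theta_upper k _⟩, fun x _ => ⟨?_, ?_⟩⟩, i, k, hi, rfl⟩
        · exact theta_strictMono k (by linarith)
        · exact theta_strictMono k (by linarith)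
  have hL := H D hD
  set L : Set I := {i | s i ∉ closure (s '' Iio i)} with hLdef
  have h1 : (s '' L) ×ˢ {(zero : Cp X)} ⊆ closure D := by
    rintro ⟨a, b⟩ ⟨⟨i, hi, rfl⟩, hb⟩
    have hb : b = zero := hb
    subst hb
    have ht : Tendsto (fun k => (s i, Theta k (z i))) atTop (𝓝 (s i, (zero : Cp X))) :=
      tendsto_const_nhds.prodMk_nhds (Theta_tendsto (z i))
    exact mem_closure_of_tendsto ht (Eventually.of_forall fun k => ⟨i, k, hi, rfl⟩)
  have h2 : closure (s '' L) ×ˢ {(zero : Cp X)} ⊆ closure D := by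
    have : closure ((s '' L) ×ˢ {(zero : Cp X)}) ⊆ closure D :=
      closure_minimal h1 isClosed_closure
    rwa [closure_prod_eq, isClosed_singleton.closure_eq] at this
  have h3 : IsLindelof (closure (s '' L) ×ˢ {(zero : Cp X)}) :=
    hL.of_isClosed_subset (isClosed_closure.prod isClosed_singleton) h2
  have h4 : IsLindelof (Prod.fst '' (closure (s '' L) ×ˢ {(zero : Cp X)})) :=
    h3.image continuous_fst
  rw [fst_image_prod _ (singleton_nonempty _)] at h4
  have h5 : closure (range s) = closure (s '' L) :=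
    Subset.antisymm (subset_closure_left s) (closure_mono (image_subset_range _ _))
  rw [h5]
  exact h4

/-- recursive choice of right-separated points from an open cover -/
lemma exists_rec {Z : Type} [Nonempty Z] {I : Type} [LinearOrder I] [WellFoundedLT I]
    (𝒰 : Set (Set Z)) (hcov : ⋃₀ 𝒰 = univ) :
    ∃ (z : I → Z) (U : I → Set Z), ∀ i, (⋃ j ∈ Iio i, U j) ≠ univ →
      U i ∈ 𝒰 ∧ z i ∈ U i ∧ z i ∉ ⋃ j ∈ Iio i, U j := by
  classical
  have h1 : ∀ V : Set Z, ∃ p : Z × Set Z, V ≠ univ → p.2 ∈ 𝒰 ∧ p.1 ∈ p.2 ∧ p.1 ∉ V := by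
    intro V
    by_cases hV : V = univ
    · exact ⟨(Classical.arbitrary Z, ∅), fun h => absurd hV h⟩
    · obtain ⟨y, hy⟩ := (ne_univ_iff_exists_notMem V).1 hV
      have : y ∈ ⋃₀ 𝒰 := by rw [hcov]; exact mem_univ _
      obtain ⟨U, hU, hyU⟩ := this
      exact ⟨(y, U), fun _ => ⟨hU, hyU, hy⟩⟩
  choose g hg using h1
  let U : I → Set Z := (wellFounded_lt (α := I)).fix
    fun i ih => (g (⋃ j : {j // j < i}, ih j.1 j.2)).2
  have hU : ∀ i, U i = (g (⋃ j ∈ Iio i, U j)).2 := by
    intro i
    have h2 : U i = (g (⋃ j : {j // j < i}, U j.1)).2 :=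
      WellFounded.fix_eq (wellFounded_lt (α := I))
        (fun i ih => (g (⋃ j : {j // j < i}, ih j.1 j.2)).2) i
    have h3 : (⋃ j : {j // j < i}, U j.1) = ⋃ j ∈ Iio i, U j := by
      ext y
      simp
    rw [h2, h3]
  refine ⟨fun i => (g (⋃ j ∈ Iio i, U j)).1, U, fun i hi => ?_⟩
  obtain ⟨h2, h3, h4⟩ := hg _ hi
  refine ⟨?_, ?_, h4⟩
  · rw [hU i]
    exact h2
  · rw [hU i]
    exact h3

/-- a space is linearly Lindelöf if every open cover that is a chain has a countable subcover -/
def LinearlyLindelof (Z : Type) [TopologicalSpace Z] : Prop :=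
  ∀ 𝒞 : Set (Set Z), (∀ U ∈ 𝒞, IsOpen U) → IsChain (· ⊆ ·) 𝒞 → ⋃₀ 𝒞 = univ →
    ∃ 𝒞' ⊆ 𝒞, 𝒞'.Countable ∧ ⋃₀ 𝒞' = univ

lemma countable_subcover {Z : Type} [TopologicalSpace Z] {K : Set Z} (hK : IsLindelof K)
    {𝒰 : Set (Set Z)} (ho : ∀ U ∈ 𝒰, IsOpen U) (hc : K ⊆ ⋃₀ 𝒰) :
    ∃ 𝒱 ⊆ 𝒰, 𝒱.Countable ∧ K ⊆ ⋃₀ 𝒱 := by
  obtain ⟨r, hr, hKr⟩ := hK.elim_countable_subcover (fun U : 𝒰 => U.1) (fun U => ho U.1 U.2)
    (by rwa [← sUnion_eq_iUnion])
  refine ⟨Subtype.val '' r, ?_, hr.image _, ?_⟩
  · rintro _ ⟨U, -, rfl⟩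
    exact U.2
  · intro x hx
    obtain ⟨U, hU, hxU⟩ := mem_iUnion₂.1 (hKr hx)
    exact ⟨U.1, ⟨U, hU, rfl⟩, hxU⟩

theorem linearlyLindelof_of (H : DiscreteClosuresLindelof (Cp X)) [Nonempty X] :
    LinearlyLindelof (Cp X) := by
  classical
  intro 𝒞 hopen hchain hcov
  by_contra hno
  push Not at hno
  have : Nonempty (Cp X) := ⟨zero⟩
  obtain ⟨e⟩ : Nonempty ((Cardinal.mk (Cp X)).ord.ToType ≃ Cp X) :=
    Cardinal.eq.1 (Cardinal.mk_ord_toType _)
  let L : Set (Cardinal.mk (Cp X)).ord.ToType := {i | e i ∉ closure (e '' Iio i)}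
  let s : L → Cp X := fun i => e i.1
  have hs : ∀ i : L, s i ∉ closure (s '' Iio i) := by
    intro i hi
    apply i.2
    refine closure_mono ?_ hi
    rintro _ ⟨j, hj, rfl⟩
    exact ⟨j.1, hj, rfl⟩
  have hdense : closure (range s) = univ := by
    have h1 := subset_closure_left (fun i => e i)
    have h2 : range (fun i => e i) = univ := e.surjective.range_eq
    rw [h2, closure_univ] at h1
    have h3 : (fun i => e i) '' {i | e i ∉ closure ((fun i => e i) '' Iio i)} = range s := by
      ext y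
      constructor
      · rintro ⟨i, hi, rfl⟩
        exact ⟨⟨i, hi⟩, rfl⟩
      · rintro ⟨i, rfl⟩
        exact ⟨i.1, i.2, rfl⟩
    rw [h3] at h1
    exact univ_subset_iff.1 h1
  obtain ⟨z, U, hzU⟩ := exists_rec (Z := Cp X) (I := L) 𝒞 hcov
  by_cases hall : ∀ i : L, (⋃ j ∈ Iio i, U j) ≠ univ
  · have hL := closure_range_lindelof H z U (fun i => hopen _ (hzU i (hall i)).1)
      (fun i => (hzU i (hall i)).2.1)
      (fun i j hij h => (hzU j (hall j)).2.2 (mem_biUnion (show i ∈ Iio j from hij) h)) s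
    rw [hdense] at hL
    obtain ⟨𝒱, hV, hVc, hVu⟩ := countable_subcover hL hopen (by rw [hcov])
    exact hno 𝒱 hV hVc (univ_subset_iff.1 hVu)
  · push Not at hall
    let B : Set L := {i | (⋃ j ∈ Iio i, U j) = univ}
    have hB : B.Nonempty := hall
    let m := (wellFounded_lt (α := L)).min B hB
    have hm : (⋃ j ∈ Iio m, U j) = univ := WellFounded.min_mem _ B hB
    have hlt : ∀ i, i < m → (⋃ j ∈ Iio i, U j) ≠ univ := fun i hi h =>
      WellFounded.not_lt_min (wellFounded_lt (α := L)) B h hi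
    let D : Set (Cp X × Cp X) := {p | ∃ i, i < m ∧ p = (z i, s i)}
    have hD : DiscreteTopology D := by
      rw [discreteTopology_subtype_iff']
      rintro _ ⟨i, hi, rfl⟩
      refine ⟨U i ×ˢ (closure (s '' Iio i))ᶜ,
        (hopen _ (hzU i (hlt i hi)).1).prod isClosed_closure.isOpen_compl, ?_⟩
      ext p
      constructor
      · rintro ⟨⟨h1, h2⟩, j, hj, rfl⟩
        have hij : ¬ i < j := fun h =>
          (hzU j (hlt j hj)).2.2 (mem_biUnion (show i ∈ Iio j from h) h1)
        have hji : ¬ j < i := fun h => h2 (subset_closure ⟨j, h, rfl⟩)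
        have : j = i := le_antisymm (not_lt.1 hij) (not_lt.1 hji)
        subst this
        rfl
      · rintro rfl
        exact ⟨⟨(hzU i (hlt i hi)).2.1, hs i⟩, i, hi, rfl⟩
    have hK : IsLindelof (Prod.fst '' closure D) := (H D hD).image continuous_fst
    have hzK : ∀ i, i < m → z i ∈ Prod.fst '' closure D := fun i hi =>
      ⟨(z i, s i), subset_closure ⟨i, hi, rfl⟩, rfl⟩
    obtain ⟨𝒱, hV, hVc, hVu⟩ := countable_subcover (𝒰 := U '' Iio m) hK
      (by
        rintro _ ⟨i, hi, rfl⟩
        exact hopen _ (hzU i (hlt i hi)).1)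
      (by
        intro y _
        have : y ∈ ⋃ j ∈ Iio m, U j := by rw [hm]; exact mem_univ _
        obtain ⟨j, hj, hy⟩ := mem_iUnion₂.1 this
        exact ⟨U j, ⟨j, hj, rfl⟩, hy⟩)
    have hVC : 𝒱 ⊆ 𝒞 := by
      intro V hVV
      obtain ⟨i, hi, rfl⟩ := hV hVV
      exact (hzU i (hlt i hi)).1
    obtain ⟨y, hy⟩ := (ne_univ_iff_exists_notMem _).1 (hno 𝒱 hVC hVc)
    have hyu : y ∈ ⋃ j ∈ Iio m, U j := by rw [hm]; exact mem_univ _
    obtain ⟨l, hl, hyl⟩ := mem_iUnion₂.1 hyu
    have hlC : U l ∈ 𝒞 := (hzU l (hlt l hl)).1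
    have hsub : ⋃₀ 𝒱 ⊆ U l := by
      rintro x ⟨V, hVV, hx⟩
      rcases hchain.total (hVC hVV) hlC with h | h
      · exact h hx
      · exact absurd ⟨V, hVV, h hyl⟩ hy
    by_cases hmax : ∃ j, l < j ∧ j < m
    · obtain ⟨j, hlj, hjm⟩ := hmax
      exact (hzU j (hlt j hjm)).2.2 (mem_biUnion (show l ∈ Iio j from hlj)
        (hsub (hVu (hzK j hjm))))
    · push Not at hmax
      have hUl : U l = univ := by
        rw [← univ_subset_iff, ← hm]
        intro x hx
        obtain ⟨j, hj, hxj⟩ := mem_iUnion₂.1 hx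
        have hjl : j ≤ l := by
          by_contra h
          exact absurd hj (not_lt.2 (hmax j (not_le.1 h)))
        rcases hjl.eq_or_lt with rfl | hjl
        · exact hxj
        · rcases hchain.total (hzU j (hlt j hj)).1 hlC with h | h
          · exact h hxj
          · exact absurd (mem_biUnion (show j ∈ Iio l from hjl) (h (hzU l (hlt l hl)).2.1))
              (hzU l (hlt l hl)).2.2
      exact hno {U l} (singleton_subset_iff.2 hlC) (countable_singleton _)
        (by rw [sUnion_singleton, hUl])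

lemma exists_bound (n : ℕ) (C : Set (Cardinal.aleph (n + 1 : ℕ)).ord.ToType) (hC : C.Countable) :
    ∃ b, ∀ c ∈ C, c ≤ b := by
  by_contra hcon
  push Not at hcon
  have h1 : (univ : Set (Cardinal.aleph (n + 1 : ℕ)).ord.ToType) ⊆ ⋃ c ∈ C, Iio c := by
    intro b _
    obtain ⟨c, hc, hbc⟩ := hcon b
    exact mem_biUnion hc hbc
  have hsucc : Cardinal.aleph ((n + 1 : ℕ) : Ordinal) = Order.succ (Cardinal.aleph (n : Ordinal)) := by
    rw [Cardinal.succ_aleph, Nat.cast_succ]
  have h2 : ∀ c : (Cardinal.aleph (n + 1 : ℕ)).ord.ToType, Cardinal.mk (Iio c) ≤ Cardinal.aleph (n : Ordinal) := by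
    intro c
    have h := Cardinal.mk_Iio_lt (α := (Cardinal.aleph (n + 1 : ℕ)).ord.ToType) c (by simp)
    have h := h.trans_eq ((Cardinal.mk_ord_toType _).trans hsucc)
    exact Order.lt_succ_iff.1 h
  have h3 : Cardinal.mk (univ : Set (Cardinal.aleph (n + 1 : ℕ)).ord.ToType) ≤ Cardinal.aleph (n : Ordinal) := by
    refine (Cardinal.mk_le_mk_of_subset h1).trans ?_
    have h4 : (⋃ c ∈ C, Iio c) = ⋃ c : C, Iio c.1 := by rw [biUnion_eq_iUnion]
    rw [h4]
    refine (Cardinal.mk_iUnion_le_sum_mk).trans ?_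
    refine (Cardinal.sum_le_sum _ (fun _ : C => Cardinal.aleph (n : Ordinal)) fun c => h2 c.1).trans ?_
    rw [Cardinal.sum_const']
    have h5 : Cardinal.mk C ≤ Cardinal.aleph (n : Ordinal) := (Cardinal.le_aleph0_iff_set_countable.2 hC).trans
      (Cardinal.aleph0_le_aleph _)
    exact (mul_le_mul' h5 le_rfl).trans (Cardinal.mul_eq_self (Cardinal.aleph0_le_aleph _)).le
  rw [Cardinal.mk_univ, Cardinal.mk_ord_toType, hsucc] at h3
  exact absurd h3 (not_le.2 (Order.lt_succ _))

/-- in a linearly Lindelöf space open covers of size below `ℵ_ω` have countable subcovers -/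
lemma small_cover {Z : Type} [TopologicalSpace Z] (hZ : LinearlyLindelof Z) (n : ℕ) :
    ∀ (ι : Type) (U : ι → Set Z), Cardinal.mk ι ≤ Cardinal.aleph (n : Ordinal) → (∀ i, IsOpen (U i)) →
      (⋃ i, U i) = univ → ∃ r : Set ι, r.Countable ∧ (⋃ i ∈ r, U i) = univ := by
  induction n with
  | zero =>
    intro ι U hι _ hU
    refine ⟨univ, ?_, by rw [biUnion_univ]; exact hU⟩
    rw [← Cardinal.le_aleph0_iff_set_countable, Cardinal.mk_univ]
    simpa using hι
  | succ n ih =>
    intro ι U hι hopen hU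
    rcases isEmpty_or_nonempty ι with hemp | hne
    · exact ⟨∅, countable_empty, by rw [← hU]; simp⟩
    have hsucc : Cardinal.aleph ((n + 1 : ℕ) : Ordinal) = Order.succ (Cardinal.aleph (n : Ordinal)) := by
      rw [Cardinal.succ_aleph, Nat.cast_succ]
    obtain ⟨t, ht⟩ : ∃ t : (Cardinal.aleph (n + 1 : ℕ)).ord.ToType → ι, Function.Surjective t := by
      have : Cardinal.mk ι ≤ Cardinal.mk (Cardinal.aleph (n + 1 : ℕ)).ord.ToType := by rwa [Cardinal.mk_ord_toType]
      obtain ⟨φ⟩ := this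
      exact ⟨Function.invFun φ, Function.invFun_surjective φ.injective⟩
    let V : (Cardinal.aleph (n + 1 : ℕ)).ord.ToType → Set Z := fun o => ⋃ p ∈ Iic o, U (t p)
    have hVmono : ∀ o p, o ≤ p → V o ⊆ V p := fun o p hop =>
      biUnion_subset_biUnion_left (Iic_subset_Iic.2 hop)
    obtain ⟨𝒱, hV, hVc, hVu⟩ := hZ (range V)
      (by
        rintro _ ⟨o, rfl⟩
        exact isOpen_biUnion fun p _ => hopen _)
      (by
        rintro _ ⟨o, rfl⟩ _ ⟨p, rfl⟩ _
        rcases le_total o p with h | h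
        · exact Or.inl (hVmono o p h)
        · exact Or.inr (hVmono p o h))
      (by
        rw [← univ_subset_iff, ← hU]
        intro x hx
        obtain ⟨i, hi⟩ := mem_iUnion.1 hx
        obtain ⟨o, rfl⟩ := ht i
        exact ⟨V o, ⟨o, rfl⟩, mem_biUnion (mem_Iic.2 (le_refl o)) hi⟩)
    have h1 : ∀ W : 𝒱, ∃ o, V o = W.1 := fun W => hV W.2
    choose o ho using h1
    have : Countable 𝒱 := hVc.to_subtype
    obtain ⟨b, hb⟩ := exists_bound n (range o) (countable_range o)
    have hVb : V b = univ := by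
      rw [← univ_subset_iff, ← hVu]
      rintro x ⟨W, hW, hx⟩
      have := ho ⟨W, hW⟩
      exact hVmono _ _ (hb _ ⟨⟨W, hW⟩, rfl⟩) (by rw [this]; exact hx)
    have hcard : Cardinal.mk (Iic b) ≤ Cardinal.aleph (n : Ordinal) := by
      have h := Cardinal.mk_Iio_lt (α := (Cardinal.aleph (n + 1 : ℕ)).ord.ToType) b (by simp)
      have h := h.trans_eq ((Cardinal.mk_ord_toType _).trans hsucc)
      have h2 : Iic b = insert b (Iio b) := by
        ext c
        simp [le_iff_eq_or_lt]
      rw [h2]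
      refine (Cardinal.mk_insert_le).trans ?_
      exact Cardinal.add_le_of_le (Cardinal.aleph0_le_aleph _) (Order.lt_succ_iff.1 h)
        (Cardinal.one_le_aleph0.trans (Cardinal.aleph0_le_aleph _))
    obtain ⟨r, hr, hru⟩ := ih (Iic b) (fun p => U (t p.1)) hcard (fun p => hopen _)
      (by
        rw [← hVb]
        show (⋃ p : Iic b, U (t p.1)) = ⋃ p ∈ Iic b, U (t p)
        rw [biUnion_eq_iUnion])
    refine ⟨(fun p : Iic b => t p.1) '' r, hr.image _, ?_⟩
    rw [biUnion_image]
    exact hru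

lemma lt_aleph_omega {c : Cardinal.{0}} (hc : c < Cardinal.aleph Ordinal.omega0) :
    ∃ n : ℕ, c ≤ Cardinal.aleph (n : Ordinal) := by
  rw [Cardinal.aleph_limit Ordinal.isSuccLimit_omega0] at hc
  obtain ⟨⟨a, ha⟩, hca⟩ := exists_lt_of_lt_ciSup' hc
  obtain ⟨n, rfl⟩ := Ordinal.lt_omega0.1 ha
  exact ⟨n, hca.le⟩

/-- closures of sets of size at most `ℵ_ω` are Lindelöf -/
theorem closure_lindelof (H : DiscreteClosuresLindelof (Cp X)) [Nonempty X]
    (A : Set (Cp X)) (hA : Cardinal.mk A ≤ Cardinal.aleph Ordinal.omega0) : IsLindelof (closure A) := by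
  classical
  rcases A.eq_empty_or_nonempty with rfl | hne
  · rw [closure_empty]
    exact isLindelof_empty
  have : Nonempty (Cp X) := ⟨zero⟩
  by_contra hcon
  -- the whole space is not Lindelöf
  have hZ : ¬ IsLindelof (univ : Set (Cp X)) := fun h =>
    hcon (h.of_isClosed_subset isClosed_closure (subset_univ _))
  obtain ⟨𝒰, hopen, hcov, hno⟩ : ∃ 𝒰 : Set (Set (Cp X)), (∀ U ∈ 𝒰, IsOpen U) ∧
      ⋃₀ 𝒰 = univ ∧ ∀ 𝒱 ⊆ 𝒰, 𝒱.Countable → ⋃₀ 𝒱 ≠ univ := by
    by_contra hall
    push Not at hall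
    apply hZ
    apply isLindelof_of_countable_subcover
    intro ι U hU hu
    obtain ⟨𝒱, hV, hVc, hVu⟩ := hall (range U) (by
      rintro _ ⟨i, rfl⟩
      exact hU i) (by
      rw [sUnion_range]
      exact univ_subset_iff.1 hu)
    have h1 : ∀ W : 𝒱, ∃ i, U i = W.1 := fun W => hV W.2
    choose i hi using h1
    have : Countable 𝒱 := hVc.to_subtype
    refine ⟨range i, countable_range i, ?_⟩
    rw [← hVu]
    rintro x ⟨W, hW, hx⟩
    refine mem_biUnion (mem_range_self (⟨W, hW⟩ : 𝒱)) ?_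
    rw [hi]
    exact hx
  obtain ⟨s, hs⟩ : ∃ s : (Cardinal.aleph Ordinal.omega0).ord.ToType → Cp X, range s = A := by
    have h1 : Cardinal.mk A ≤ Cardinal.mk (Cardinal.aleph Ordinal.omega0).ord.ToType := by rwa [Cardinal.mk_ord_toType]
    have : Nonempty A := hne.to_subtype
    obtain ⟨φ⟩ := h1
    refine ⟨fun i => (Function.invFun φ i).1, ?_⟩
    have h2 : Function.Surjective (Function.invFun φ) := Function.invFun_surjective φ.injective
    ext y
    constructor
    · rintro ⟨i, rfl⟩
      exact (Function.invFun φ i).2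
    · intro hy
      obtain ⟨i, hi⟩ := h2 ⟨y, hy⟩
      exact ⟨i, congrArg Subtype.val hi⟩
  obtain ⟨z, U, hzU⟩ := exists_rec (Z := Cp X) (I := (Cardinal.aleph Ordinal.omega0).ord.ToType) 𝒰 hcov
  by_cases hall : ∀ i, (⋃ j ∈ Iio i, U j) ≠ univ
  · have hL := closure_range_lindelof H z U (fun i => hopen _ (hzU i (hall i)).1)
      (fun i => (hzU i (hall i)).2.1)
      (fun i j hij h => (hzU j (hall j)).2.2 (mem_biUnion (show i ∈ Iio j from hij) h)) s
    rw [hs] at hL
    exact hcon hL
  · push Not at hall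
    let m := (wellFounded_lt (α := (Cardinal.aleph Ordinal.omega0).ord.ToType)).min
      {i | (⋃ j ∈ Iio i, U j) = univ} hall
    have hm : (⋃ j ∈ Iio m, U j) = univ :=
      WellFounded.min_mem _ {i | (⋃ j ∈ Iio i, U j) = univ} hall
    have hlt : ∀ i, i < m → (⋃ j ∈ Iio i, U j) ≠ univ := fun i hi h =>
      WellFounded.not_lt_min (wellFounded_lt (α := (Cardinal.aleph Ordinal.omega0).ord.ToType))
        {i | (⋃ j ∈ Iio i, U j) = univ} h hi
    have hcard : Cardinal.mk (Iio m) < Cardinal.aleph Ordinal.omega0 := by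
      have h := Cardinal.mk_Iio_lt (α := (Cardinal.aleph Ordinal.omega0).ord.ToType) m (by simp)
      rwa [Cardinal.mk_ord_toType] at h
    obtain ⟨n, hn⟩ := lt_aleph_omega hcard
    obtain ⟨r, hr, hru⟩ := small_cover (linearlyLindelof_of H) n (Iio m) (fun j => U j.1) hn
      (fun j => hopen _ (hzU j.1 (hlt j.1 j.2)).1) (by rw [biUnion_eq_iUnion] at hm; exact hm)
    refine hno ((fun j : Iio m => U j.1) '' r) ?_ (hr.image _) ?_
    · rintro _ ⟨j, -, rfl⟩
      exact (hzU j.1 (hlt j.1 j.2)).1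
    · rw [sUnion_image]
      exact hru

/-- a plateau function: one where `|f - c| ≤ r`, zero where `|f - c| ≥ 2 r` -/
noncomputable def plateau (f : Cp X) (c r : ℚ) (x : X) : ℝ :=
  max 0 (min 1 (2 - |f.1 x - c| / r))

lemma plateau_cont (f : Cp X) (c r : ℚ) : Continuous (plateau f c r) := by
  unfold plateau
  exact continuous_const.max (continuous_const.min (continuous_const.sub
    (((f.2.sub continuous_const).abs).div_const _)))

/-- finite combinations of products of plateau functions -/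
noncomputable def combo (F : Set (Cp X)) (l : List (ℚ × List (F × ℚ × ℚ))) (x : X) : ℝ :=
  (l.map fun p => (p.1 : ℝ) * (p.2.map fun q => plateau q.1.1 q.2.1 q.2.2 x).prod).sum

lemma list_prod_cont (F : Set (Cp X)) (l : List (F × ℚ × ℚ)) :
    Continuous fun x : X => (l.map fun q => plateau q.1.1 q.2.1 q.2.2 x).prod := by
  induction l with
  | nil => simpa using continuous_const
  | cons a l ih =>
    simp only [List.map_cons, List.prod_cons]
    exact (plateau_cont _ _ _).mul ih

lemma combo_cont (F : Set (Cp X)) (l : List (ℚ × List (F × ℚ × ℚ))) :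
    Continuous (combo F l) := by
  unfold combo
  induction l with
  | nil => simpa using continuous_const
  | cons a l ih =>
    simp only [List.map_cons, List.sum_cons]
    exact (continuous_const.mul (list_prod_cont F a.2)).add ih

/-- a point-separating family yields functions that single out a point of a finite set -/
lemma exists_peak (F : Set (Cp X)) (hF : ∀ x y : X, x ≠ y → ∃ f ∈ F, f.1 x ≠ f.1 y)
    (E : Finset X) (x : X) : ∃ l : List (F × ℚ × ℚ),
      (l.map fun q => plateau q.1.1 q.2.1 q.2.2 x).prod = 1 ∧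
      ∀ y ∈ E, y ≠ x → (l.map fun q => plateau q.1.1 q.2.1 q.2.2 y).prod = 0 := by
  classical
  induction E using Finset.induction_on with
  | empty => exact ⟨[], by simp, by simp⟩
  | insert a E ha ih =>
    obtain ⟨l, hl1, hl2⟩ := ih
    by_cases hax : a = x
    · refine ⟨l, hl1, fun y hy hne => ?_⟩
      rcases Finset.mem_insert.1 hy with rfl | hy
      · exact absurd hax hne
      · exact hl2 y hy hne
    · obtain ⟨f, hf, hne⟩ := hF x a (Ne.symm hax)
      have hpos : 0 < |f.1 a - f.1 x| := abs_pos.2 (sub_ne_zero.2 (Ne.symm hne))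
      obtain ⟨r, hr1, hr2⟩ := exists_rat_btwn (show (0 : ℝ) < |f.1 a - f.1 x| / 4 by positivity)
      obtain ⟨c, hc1, hc2⟩ := exists_rat_btwn (show f.1 x < f.1 x + r by linarith)
      have hx1 : plateau f c r x = 1 := by
        unfold plateau
        have h1 : |f.1 x - c| ≤ r := by
          rw [abs_le]
          constructor <;> linarith
        have h2 : |f.1 x - c| / r ≤ 1 := (div_le_one hr1).2 h1
        rw [min_eq_left (by linarith), max_eq_right zero_le_one]
      have ha0 : plateau f c r a = 0 := by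
        unfold plateau
        have h1 : 2 * (r : ℝ) ≤ |f.1 a - c| := by
          have h3 : |f.1 a - f.1 x| ≤ |f.1 a - c| + |(c : ℝ) - f.1 x| := abs_sub_le _ _ _
          have h4 : |(c : ℝ) - f.1 x| ≤ r := by
            rw [abs_le]
            constructor <;> linarith
          linarith
        have h2 : 2 ≤ |f.1 a - c| / r := (le_div_iff₀ hr1).2 h1
        apply max_eq_left
        exact (min_le_right _ _).trans (by linarith)
      refine ⟨(⟨f, hf⟩, c, r) :: l, ?_, ?_⟩
      · simp only [List.map_cons, List.prod_cons]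
        rw [hx1, hl1, one_mul]
      · intro y hy hne'
        simp only [List.map_cons, List.prod_cons]
        rcases Finset.mem_insert.1 hy with rfl | hy
        · rw [ha0, zero_mul]
        · rw [hl2 y hy hne', mul_zero]

/-- rational interpolation on finite sets -/
lemma exists_combo (F : Set (Cp X)) (hF : ∀ x y : X, x ≠ y → ∃ f ∈ F, f.1 x ≠ f.1 y)
    (E : Finset X) (v : X → ℚ) : ∃ l : List (ℚ × List (F × ℚ × ℚ)),
      ∀ x ∈ E, combo F l x = v x := by
  classical
  have h1 : ∀ x : X, ∃ l : List (F × ℚ × ℚ),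
      (l.map fun q => plateau q.1.1 q.2.1 q.2.2 x).prod = 1 ∧
      ∀ y ∈ E, y ≠ x → (l.map fun q => plateau q.1.1 q.2.1 q.2.2 y).prod = 0 :=
    exists_peak F hF E
  choose p hp1 hp0 using h1
  refine ⟨E.toList.map fun x => (v x, p x), fun y hy => ?_⟩
  unfold combo
  rw [List.map_map]
  have h2 : (List.map ((fun q : ℚ × List (F × ℚ × ℚ) =>
      (q.1 : ℝ) * (q.2.map fun q => plateau q.1.1 q.2.1 q.2.2 y).prod) ∘
        fun x => (v x, p x)) E.toList).sum =
      ∑ x ∈ E, (v x : ℝ) * ((p x).map fun q => plateau q.1.1 q.2.1 q.2.2 y).prod := by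
    rw [Finset.sum_eq_multiset_sum, ← Finset.coe_toList, Multiset.map_coe, Multiset.sum_coe]
    rfl
  rw [h2, Finset.sum_eq_single y]
  · rw [hp1, mul_one]
  · intro x hx hne
    rw [hp0 x y hy (Ne.symm hne), mul_zero]
  · intro h
    exact absurd hy h

lemma mk_combo (F : Set (Cp X)) {κ : Cardinal.{0}} (hκ : Cardinal.aleph0 ≤ κ)
    (hF : Cardinal.mk F ≤ κ) : Cardinal.mk (List (ℚ × List (F × ℚ × ℚ))) ≤ κ := by
  have hQ : Cardinal.mk ℚ ≤ κ := (Cardinal.mk_le_aleph0).trans hκ
  have hprod : ∀ (α β : Type), Cardinal.mk α ≤ κ → Cardinal.mk β ≤ κ →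
      Cardinal.mk (α × β) ≤ κ := by
    intro α β h1 h2
    rw [← Cardinal.mul_def]
    exact (mul_le_mul' h1 h2).trans (Cardinal.mul_eq_self hκ).le
  have hlist : ∀ (α : Type), Cardinal.mk α ≤ κ → Cardinal.mk (List α) ≤ κ := by
    intro α h1
    exact (Cardinal.mk_list_le_max α).trans (max_le hκ h1)
  exact hlist _ (hprod _ _ hQ (hlist _ (hprod _ _ hF (hprod _ _ hQ hQ))))

/-- if `X` has at most `ℵ_ω` continuous functions separating its points, then `C_p(X)` is
Lindelöf -/
theorem lindelof_of_separating (H : DiscreteClosuresLindelof (Cp X)) [Nonempty X]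
    (F : Set (Cp X)) (hF : ∀ x y : X, x ≠ y → ∃ f ∈ F, f.1 x ≠ f.1 y)
    (hcard : Cardinal.mk F ≤ Cardinal.aleph Ordinal.omega0) : LindelofSpace (Cp X) := by
  classical
  let A : Set (Cp X) := range fun l : List (ℚ × List (F × ℚ × ℚ)) =>
    (⟨combo F l, combo_cont F l⟩ : Cp X)
  have hA : Cardinal.mk A ≤ Cardinal.aleph Ordinal.omega0 :=
    Cardinal.mk_range_le.trans (mk_combo F (Cardinal.aleph0_le_aleph _) hcard)
  have hdense : closure A = univ := by
    rw [← univ_subset_iff]
    intro f _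
    rw [mem_closure_iff]
    intro U hU hf
    obtain ⟨E, ε, hε, hE⟩ := nbhd hU hf
    have h1 : ∀ x : X, ∃ q : ℚ, |(q : ℝ) - f.1 x| < ε := by
      intro x
      obtain ⟨q, hq1, hq2⟩ := exists_rat_btwn (show f.1 x < f.1 x + ε by linarith)
      refine ⟨q, ?_⟩
      rw [abs_lt]
      constructor <;> linarith
    choose v hv using h1
    obtain ⟨l, hl⟩ := exists_combo F hF E v
    refine ⟨⟨combo F l, combo_cont F l⟩, hE _ fun x hx => ?_, l, rfl⟩
    show |combo F l x - f.1 x| < ε
    rw [hl x hx]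
    exact hv x
  have h2 := closure_lindelof H A hA
  rw [hdense] at h2
  exact ⟨h2⟩

/-- `C_p` of the empty space is a single point -/
lemma lindelof_of_empty [IsEmpty X] : LindelofSpace (Cp X) := by
  have : Subsingleton (Cp X) := ⟨fun f g => Subtype.ext (funext fun x => isEmptyElim x)⟩
  exact ⟨(Set.subsingleton_univ).isLindelof⟩

/-- continuous functions separate the points of a Tychonoff space -/
lemma exists_separating [T35Space X] : ∃ F : Set (Cp X),
    (∀ x y : X, x ≠ y → ∃ f ∈ F, f.1 x ≠ f.1 y) ∧ Cardinal.mk F ≤ Cardinal.mk (X × X) := by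
  classical
  have h1 : ∀ p : X × X, ∃ f : Cp X, p.1 ≠ p.2 → f.1 p.1 ≠ f.1 p.2 := by
    rintro ⟨x, y⟩
    by_cases hxy : x = y
    · exact ⟨zero, fun h => absurd hxy h⟩
    · obtain ⟨f, hf, h0, h1⟩ := CompletelyRegularSpace.completely_regular x {y}
        isClosed_singleton (fun h => hxy h)
      refine ⟨⟨fun z => (f z : ℝ), continuous_subtype_val.comp hf⟩, fun _ => ?_⟩
      show (f x : ℝ) ≠ (f y : ℝ)
      rw [h0, h1 (mem_singleton y)]
      simp
  choose f hf using h1
  exact ⟨range f, fun x y hxy => ⟨f (x, y), ⟨_, rfl⟩, hf (x, y) hxy⟩, Cardinal.mk_range_le⟩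

end

/-- **Theorem.** Let `X` be a Tychonoff space such that the closure of every discrete subset of
`C_p(X) × C_p(X)` is Lindelöf. Then `C_p(X)` is linearly Lindelöf; the closure in `C_p(X)` of
every set of at most `ℵ_ω` functions is Lindelöf; and `C_p(X)` is Lindelöf whenever at most `ℵ_ω`
continuous functions separate the points of `X`, in particular whenever `|X| ≤ ℵ_ω`. -/
theorem result (X : Type) [TopologicalSpace X] [T35Space X]
    (H : ∀ D : Set ({f : X → ℝ // Continuous f} × {f : X → ℝ // Continuous f}),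
      DiscreteTopology D → IsLindelof (closure D)) :
    LinearlyLindelof (Cp X) ∧
    (∀ A : Set (Cp X), Cardinal.mk A ≤ Cardinal.aleph Ordinal.omega0 → IsLindelof (closure A)) ∧
    ((∃ F : Set (Cp X), Cardinal.mk F ≤ Cardinal.aleph Ordinal.omega0 ∧
      ∀ x y : X, x ≠ y → ∃ f ∈ F, f.1 x ≠ f.1 y) → LindelofSpace (Cp X)) ∧
    (Cardinal.mk X ≤ Cardinal.aleph Ordinal.omega0 → LindelofSpace (Cp X)) := by
  rcases isEmpty_or_nonempty X with hX | hX
  · have hL : LindelofSpace (Cp X) := lindelof_of_empty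
    refine ⟨fun 𝒞 hopen _ hcov => ?_, fun A _ => isClosed_closure.isLindelof, fun _ => hL,
      fun _ => hL⟩
    obtain ⟨𝒱, h1, h2, h3⟩ := countable_subcover (isLindelof_univ (X := Cp X)) hopen (by rw [hcov])
    exact ⟨𝒱, h1, h2, univ_subset_iff.1 h3⟩
  · refine ⟨linearlyLindelof_of H, closure_lindelof H, ?_, ?_⟩
    · rintro ⟨F, hF, hsep⟩
      exact lindelof_of_separating H F hsep hF
    · intro hcard
      obtain ⟨F, hsep, hF⟩ := exists_separating (X := X)
      refine lindelof_of_separating H F hsep (hF.trans ?_)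
      rw [← Cardinal.mul_def]
      exact (mul_le_mul' hcard hcard).trans (Cardinal.mul_eq_self (Cardinal.aleph0_le_aleph _)).le


end Pool.Agent.Results.MP_f12e07_gt.SmallDensity
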